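import Pool.Agent.H13.RankSplit

/-!
# Approximate homomorphisms into matrices modulo low rank: commuting values

Let `f : F_p^m → Mat_n(F_p)` be an arbitrary map with pairwise commuting values and
`rank (f(x+y) - f(x) - f(y)) ≤ r` for all `x, y`. Then there is a linear map `g` with
`rank (f x - g x) ≤ 6 r + rank N(x)`, where `N(x)` is the nilpotent part of `f x` (Jordan
decomposition). In particular `rank (f x - g x) ≤ 6 r` whenever `f x` is semisimple; so for
commuting semisimple values (for instance diagonal matrices) Q1 has a positive answer, with the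
constant 6.

Proof: the values generate a commutative algebra `A`. A suitable power `F` of the Frobenius map
is an additive projection of `A` onto a reduced subring `B`, a product of fields, and
`rank F(a) ≤ rank a`. On `B` the rank is a weighted Hamming weight. The defect has weight at
most `r` for all pairs, so averaging over all pairs bounds the weighted sum of the failure
probabilities of the linearity tests of the coordinates; a coordinate with failure probability
below `2/9` is corrected by majority vote (homomorphism testing).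
-/

set_option autoImplicit false

namespace Pool.Agent.Results.MP_d3b2ec_co.CommutingValues

open Pool.Agent.H13 Module

/-- a self-map of a finite set has an idempotent iterate -/
lemma exists_idem {α : Type*} [Finite α] (F : α → α) :
    ∃ k, 0 < k ∧ ∀ a, F^[k] (F^[k] a) = F^[k] a := by
  obtain ⟨i, j, hij, h⟩ := Finite.exists_ne_map_eq_of_infinite (fun i : ℕ => F^[i])
  wlog hlt : i < j generalizing i j with H
  · exact H j i (Ne.symm hij) h.symm (lt_of_le_of_ne (not_lt.1 hlt) (Ne.symm hij))
  obtain ⟨d, rfl⟩ := Nat.exists_eq_add_of_lt hlt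
  have hd : ∀ s ≥ i, ∀ t a, F^[s + t * (d + 1)] a = F^[s] a := by
    intro s hs t
    induction t with
    | zero => simp
    | succ t ih =>
      intro a
      obtain ⟨u, rfl⟩ := Nat.exists_eq_add_of_le hs
      have e : i + u + (t + 1) * (d + 1) = (u + t * (d + 1)) + (i + d + 1) := by ring
      rw [e, Function.iterate_add_apply]
      have h' : F^[i + d + 1] a = F^[i] a := (congrFun h a).symm
      rw [h', ← Function.iterate_add_apply]
      have e' : u + t * (d + 1) + i = i + u + t * (d + 1) := by ring
      rw [e', ih]
  refine ⟨(i + 1) * (d + 1), by positivity, fun a => ?_⟩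
  rw [← Function.iterate_add_apply]
  exact hd _ (by nlinarith) _ a

lemma rank_add_le' {K : Type*} [Field K] {n : ℕ} (A B : Matrix (Fin n) (Fin n) K) :
    (A + B).rank ≤ A.rank + B.rank := by
  unfold Matrix.rank
  rw [Matrix.mulVecLin_add]
  have h : LinearMap.range (A.mulVecLin + B.mulVecLin) ≤
      LinearMap.range A.mulVecLin ⊔ LinearMap.range B.mulVecLin := by
    rintro _ ⟨u, rfl⟩
    exact Submodule.add_mem_sup ⟨u, rfl⟩ ⟨u, rfl⟩
  exact (Submodule.finrank_mono h).trans (Submodule.finrank_add_le_finrank_add_finrank _ _)

lemma rank_neg' {K : Type*} [Field K] {n : ℕ} (A : Matrix (Fin n) (Fin n) K) :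
    (-A).rank = A.rank := by
  have h : (-A) = (-1 : K) • A := by simp
  unfold Matrix.rank
  have e : LinearMap.range (-A).mulVecLin = LinearMap.range A.mulVecLin := by
    apply le_antisymm
    · rintro _ ⟨u, rfl⟩
      exact ⟨-u, by simp [Matrix.mulVec_neg]⟩
    · rintro _ ⟨u, rfl⟩
      exact ⟨-u, by simp [Matrix.mulVec_neg]⟩
  rw [e]

theorem result (p : ℕ) [Fact p.Prime] (m n r : ℕ)
    (f : (Fin m → ZMod p) → Matrix (Fin n) (Fin n) (ZMod p))
    (hc : ∀ x y, Commute (f x) (f y))
    (hf : ∀ x y, (f (x + y) - f x - f y).rank ≤ r) :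
    ∃ g : (Fin m → ZMod p) →ₗ[ZMod p] Matrix (Fin n) (Fin n) (ZMod p),
      (∀ x, g x ∈ Algebra.adjoin (ZMod p) (Set.range f)) ∧
      (∀ x, ∃ N : Matrix (Fin n) (Fin n) (ZMod p),
        IsNilpotent N ∧ Commute N (f x) ∧
        Module.End.IsSemisimple (Matrix.toLin' (f x - N)) ∧
        (f x - g x).rank ≤ 6 * r + N.rank) ∧
      (∀ x, Module.End.IsSemisimple (Matrix.toLin' (f x)) → (f x - g x).rank ≤ 6 * r) := by
  classical
  rcases Nat.eq_zero_or_pos n with rfl | hn
  · have h0 : ∀ M : Matrix (Fin 0) (Fin 0) (ZMod p), M.rank = 0 := fun M => by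
      have := M.rank_le_card_height
      simpa using this
    have h1 : ∀ M : Matrix (Fin 0) (Fin 0) (ZMod p), M = 0 := fun M => Subsingleton.elim _ _
    refine ⟨0, fun x => by simp, fun x => ⟨0, IsNilpotent.zero, Commute.zero_left _, ?_, ?_⟩,
      fun x _ => ?_⟩
    · rw [h1 (f x - 0), map_zero]
      exact Module.End.isSemisimple_zero
    · rw [h0]; exact Nat.zero_le _
    · rw [h0]; exact Nat.zero_le _
  · have : NeZero n := ⟨hn.ne'⟩
    set A := Algebra.adjoin (ZMod p) (Set.range f) with hA
    have hcomA := Algebra.isMulCommutative_adjoin (ZMod p) (s := Set.range f) (by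
      rintro _ ⟨x, rfl⟩ _ ⟨y, rfl⟩
      exact hc x y)
    let instA : CommRing A := { (inferInstance : Ring A) with
      mul_comm := fun a b => hcomA.is_comm.comm a b }
    have : Finite A := Subtype.finite
    have : CharP A p := charP_of_injective_algebraMap (algebraMap (ZMod p) A).injective p
    obtain ⟨k, hk, hidem⟩ := exists_idem (frobenius A p)
    set F : A →+* A := iterateFrobenius A p k with hF
    have hFp : ∀ a, F a = a ^ p ^ k := fun a => rfl
    have hFF : ∀ a, F (F a) = F a := by
      intro a
      have e : ∀ a, F a = (frobenius A p)^[k] a := by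
        intro a
        rw [hF, iterateFrobenius_eq_pow]
        exact congrFun (RingHom.coe_pow (frobenius A p) k) a
      rw [e (F a), e a]
      exact hidem a
    have hpk : 1 < p ^ k := Nat.one_lt_pow hk.ne' (Fact.out : p.Prime).one_lt
    set B := F.range with hB
    have : Finite B := Subtype.finite
    have hFB : ∀ b : B, b ^ p ^ k = b := by
      rintro ⟨_, a, rfl⟩
      apply Subtype.ext
      show F a ^ p ^ k = F a
      rw [← hFp, hFF]
    have : IsReduced B := (isReduced_iff_pow_one_lt (p ^ k) hpk).2 fun x hx => by
      rw [← hFB x, hx]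
    -- the representation on the space of columns
    let ψ : A →+* Module.End (ZMod p) (Fin n → ZMod p) :=
      (Matrix.toLinAlgEquiv' : Matrix (Fin n) (Fin n) (ZMod p) ≃ₐ[ZMod p] _).toRingEquiv.toRingHom.comp
        A.val.toRingHom
    have hψ : ∀ a : A, ψ a = Matrix.toLin' a.1 := fun a => rfl
    have hrk : ∀ a : A, RankSplit.rk (ψ a) = a.1.rank := by
      intro a
      rw [hψ, RankSplit.rk, Matrix.rank, Matrix.toLin'_apply']
    have hrkF : ∀ a : A, (F a).1.rank ≤ a.1.rank := by
      intro a
      have e : (F a).1 = a.1 * (a ^ (p ^ k - 1)).1 := by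
        rw [hFp, ← Subalgebra.coe_mul, ← pow_succ', Nat.sub_add_cancel hpk.le]
      rw [e]
      exact Matrix.rank_mul_le_left _ _
    let φ : B →+* Module.End (ZMod p) (Fin n → ZMod p) := ψ.comp B.subtype
    have hfA : ∀ x, f x ∈ A := fun x => Algebra.subset_adjoin ⟨x, rfl⟩
    let fA : (Fin m → ZMod p) → A := fun x => ⟨f x, hfA x⟩
    obtain ⟨g, hadd, hg⟩ := RankSplit.main (G := Multiplicative (Fin m → ZMod p)) φ
      (fun x => F.rangeRestrict (fA (Multiplicative.toAdd x))) r (by
        intro x y
        rw [← map_add, ← map_sub]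
        show RankSplit.rk (ψ (F _)) ≤ r
        rw [hrk]
        refine (hrkF _).trans ?_
        have e : (fA (Multiplicative.toAdd x) + fA (Multiplicative.toAdd y) -
            fA (Multiplicative.toAdd (x * y))).1 =
            -(f (Multiplicative.toAdd x + Multiplicative.toAdd y) - f (Multiplicative.toAdd x)
              - f (Multiplicative.toAdd y)) := by
          show f (Multiplicative.toAdd x) + f (Multiplicative.toAdd y) -
            f (Multiplicative.toAdd x + Multiplicative.toAdd y) = _
          abel
        rw [e, rank_neg']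
        exact hf _ _)
    let gl : (Fin m → ZMod p) →+ Matrix (Fin n) (Fin n) (ZMod p) :=
      { toFun := fun x => (g (Multiplicative.ofAdd x)).1.1
        map_zero' := by
          have h := hadd 1 1
          rw [mul_one] at h
          have h' : g 1 = 0 := by simpa using h
          show (g 1).1.1 = 0
          rw [h']
          rfl
        map_add' := by
          intro x y
          show (g (Multiplicative.ofAdd x * Multiplicative.ofAdd y)).1.1 = _
          rw [hadd]
          rfl }
    have hmain : ∀ x, ((F (fA x)).1 - gl x).rank ≤ 6 * r := by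
      intro x
      have h := hg (Multiplicative.ofAdd x)
      have h' : RankSplit.rk (ψ (F (fA x) - (g (Multiplicative.ofAdd x)).1)) ≤ 6 * r := h
      rw [hrk] at h'
      exact h'
    have hnil : ∀ x, IsNilpotent (f x - (F (fA x)).1) := by
      intro x
      refine ⟨p ^ k, ?_⟩
      have e : (fA x - F (fA x)) ^ p ^ k = 0 := by
        rw [← hFp, map_sub, hFF, sub_self]
      exact congrArg Subtype.val e
    have hcom : ∀ x, Commute (f x - (F (fA x)).1) (f x) := by
      intro x
      exact congrArg Subtype.val (mul_comm (fA x - F (fA x)) (fA x))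
    have hss : ∀ x, Module.End.IsSemisimple (Matrix.toLin' ((F (fA x)).1)) := by
      intro x
      have hsq : Squarefree (Polynomial.X ^ p ^ k - Polynomial.X : Polynomial (ZMod p)) :=
        (galois_poly_separable p (p ^ k) (dvd_pow_self p hk.ne')).squarefree
      refine Module.End.isSemisimple_of_squarefree_aeval_eq_zero hsq ?_
      rw [map_sub, map_pow, Polynomial.aeval_X]
      have e : ψ (F (fA x)) ^ p ^ k - ψ (F (fA x)) = 0 := by
        rw [← map_pow, ← hFp, hFF, sub_self]
      exact e
    have htri : ∀ x, (f x - gl x).rank ≤ 6 * r + (f x - (F (fA x)).1).rank := by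
      intro x
      have e : f x - gl x = ((F (fA x)).1 - gl x) + (f x - (F (fA x)).1) := by abel
      rw [e]
      exact (rank_add_le' _ _).trans (Nat.add_le_add_right (hmain x) _)
    refine ⟨gl.toZModLinearMap p, ?_, ?_, ?_⟩
    · intro x
      exact (g (Multiplicative.ofAdd x)).1.2
    · intro x
      refine ⟨f x - (F (fA x)).1, hnil x, hcom x, ?_, htri x⟩
      rw [sub_sub_cancel]
      exact hss x
    · intro x hx
      have hc' : Commute (Matrix.toLin' (f x) : Module.End (ZMod p) (Fin n → ZMod p))
          (Matrix.toLin' (F (fA x)).1) := by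
        have e : ψ (fA x) * ψ (F (fA x)) = ψ (F (fA x)) * ψ (fA x) := by
          rw [← map_mul, ← map_mul, mul_comm]
        exact e
      have h1 : Module.End.IsSemisimple (Matrix.toLin' (f x - (F (fA x)).1)) := by
        rw [map_sub]
        exact Module.End.IsSemisimple.sub_of_commute hc' hx (hss x)
      have h2 : IsNilpotent (Matrix.toLin' (f x - (F (fA x)).1)) :=
        (hnil x).map (Matrix.toLinAlgEquiv' : Matrix (Fin n) (Fin n) (ZMod p) ≃ₐ[ZMod p] _)
      have h3 := Module.End.eq_zero_of_isNilpotent_isSemisimple h2 h1
      have h4 : f x - (F (fA x)).1 = 0 := by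
        apply (Matrix.toLin' : Matrix (Fin n) (Fin n) (ZMod p) ≃ₗ[ZMod p] _).injective
        rw [map_zero]
        exact h3
      have := htri x
      rw [h4, Matrix.rank_zero] at this
      exact this

end Pool.Agent.Results.MP_d3b2ec_co.CommutingValues
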