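import Pool.Agent.H13.PolyMap

/-!
# Approximate homomorphisms into matrices modulo low rank: polynomial maps of degree below `p`

Let `f : F_p^m → Mat_n(F_p)` be a polynomial map of degree at most `d`, where `1 ≤ d < p`, with
`rank (f(x+y) - f(x) - f(y)) ≤ r` for all `x, y` (it suffices: for all `y ∈ F_p x`). Then the
homogeneous part `g` of degree one of `f` satisfies `rank (f x - g x) ≤ d r` for all `x`. So Q1 has
a positive answer, with the constant 10, for all polynomial maps of degree at most 10 over the
fields `F_p` with `p > 10`.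
-/

set_option autoImplicit false

namespace Pool.Agent.Results.MP_d3b2ec_co.PolynomialMaps

open Finset MvPolynomial Pool.Agent.H13.PolyMap

/-- the map `F_p^m → Mat_n(F_p)` given by an `n × n` matrix of polynomials in `m` variables -/
noncomputable def polyMap {p m n : ℕ} (P : Matrix (Fin n) (Fin n) (MvPolynomial (Fin m) (ZMod p)))
    (x : Fin m → ZMod p) : Matrix (Fin n) (Fin n) (ZMod p) :=
  fun i j => eval x (P i j)

lemma rank_add_le' {K : Type*} [Field K] {n : ℕ} (A B : Matrix (Fin n) (Fin n) K) :
    (A + B).rank ≤ A.rank + B.rank := by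
  unfold Matrix.rank
  rw [Matrix.mulVecLin_add]
  have h : LinearMap.range (A.mulVecLin + B.mulVecLin) ≤
      LinearMap.range A.mulVecLin ⊔ LinearMap.range B.mulVecLin := by
    rintro _ ⟨u, rfl⟩
    exact Submodule.add_mem_sup ⟨u, rfl⟩ ⟨u, rfl⟩
  exact (Submodule.finrank_mono h).trans (Submodule.finrank_add_le_finrank_add_finrank _ _)

lemma rank_sum_le' {K : Type*} [Field K] {n : ℕ} {ι : Type*} (s : Finset ι)
    (A : ι → Matrix (Fin n) (Fin n) K) : (∑ i ∈ s, A i).rank ≤ ∑ i ∈ s, (A i).rank := by
  classical
  induction s using Finset.induction_on with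
  | empty => simp
  | insert a s ha ih =>
    rw [sum_insert ha, sum_insert ha]
    exact (rank_add_le' _ _).trans (Nat.add_le_add_left ih _)

lemma rank_smul_le' {K : Type*} [Field K] {n : ℕ} (c : K) (A : Matrix (Fin n) (Fin n) K) :
    (c • A).rank ≤ A.rank := by
  unfold Matrix.rank
  refine Submodule.finrank_mono ?_
  rintro _ ⟨u, rfl⟩
  exact ⟨c • u, by simp⟩

theorem result (p : ℕ) [Fact p.Prime] (m n r d : ℕ) (h1 : 1 ≤ d) (hd : d < p)
    (P : Matrix (Fin n) (Fin n) (MvPolynomial (Fin m) (ZMod p)))
    (hP : ∀ i j, (P i j).totalDegree ≤ d)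
    (hf : ∀ x y, (polyMap P (x + y) - polyMap P x - polyMap P y).rank ≤ r) :
    ∃ g : (Fin m → ZMod p) →ₗ[ZMod p] Matrix (Fin n) (Fin n) (ZMod p),
      (∀ x, g x = polyMap (fun i j => homogeneousComponent 1 (P i j)) x) ∧
      ∀ x, (polyMap P x - g x).rank ≤ d * r := by
  let g : (Fin m → ZMod p) →+ Matrix (Fin n) (Fin n) (ZMod p) :=
    { toFun := polyMap fun i j => homogeneousComponent 1 (P i j)
      map_zero' := by
        have h : ∀ i j, eval (0 : Fin m → ZMod p) (homogeneousComponent 1 (P i j)) = 0 := by
          intro i j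
          have := eval_add_hom (P i j) 0 0
          rw [add_zero] at this
          simpa using this
        funext i j
        exact h i j
      map_add' := by
        intro x y
        funext i j
        exact eval_add_hom (P i j) x y }
  refine ⟨g.toZModLinearMap p, fun x => rfl, fun x => ?_⟩
  obtain ⟨c, hc⟩ := exists_coeff p d h1 hd
  have key : polyMap P x - g x = ∑ i : Fin d, c i •
      (polyMap P (x + ((i : ℕ) : ZMod p) • x) - polyMap P x -
        polyMap P (((i : ℕ) : ZMod p) • x)) := by
    funext a b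
    rw [Matrix.sum_apply]
    simp only [Matrix.sub_apply, Matrix.smul_apply, smul_eq_mul]
    show eval x (P a b) - eval x (homogeneousComponent 1 (P a b)) = ∑ i : Fin d, c i *
      (eval (x + ((i : ℕ) : ZMod p) • x) (P a b) - eval x (P a b) -
        eval (((i : ℕ) : ZMod p) • x) (P a b))
    have e1 : ∀ i : Fin d, x + ((i : ℕ) : ZMod p) • x = (1 + ((i : ℕ) : ZMod p)) • x := by
      intro i
      rw [add_smul, one_smul]
    have e2 : ∀ t : ZMod p, eval (t • x) (P a b) =
        ∑ k ∈ range (d + 1), t ^ k * eval x (homogeneousComponent k (P a b)) := by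
      intro t
      rw [eval_sum_hom (P a b) d (hP a b)]
      exact sum_congr rfl fun k _ => eval_smul_hom _ _ _ _
    have e3 : eval x (P a b) = ∑ k ∈ range (d + 1), eval x (homogeneousComponent k (P a b)) :=
      eval_sum_hom (P a b) d (hP a b) x
    have e4 : ∀ i : Fin d, c i * (eval (x + ((i : ℕ) : ZMod p) • x) (P a b) - eval x (P a b) -
        eval (((i : ℕ) : ZMod p) • x) (P a b)) = ∑ k ∈ range (d + 1),
          (c i * ((1 + ((i : ℕ) : ZMod p)) ^ k - 1 - ((i : ℕ) : ZMod p) ^ k)) *
            eval x (homogeneousComponent k (P a b)) := by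
      intro i
      rw [e1, e2, e2, e3, ← sum_sub_distrib, ← sum_sub_distrib, mul_sum]
      exact sum_congr rfl fun k _ => by ring
    rw [sum_congr rfl fun i _ => e4 i, sum_comm]
    have e5 : ∀ k ∈ range (d + 1), ∑ i : Fin d,
        (c i * ((1 + ((i : ℕ) : ZMod p)) ^ k - 1 - ((i : ℕ) : ZMod p) ^ k)) *
          eval x (homogeneousComponent k (P a b)) =
        eval x (homogeneousComponent k (P a b)) -
          (if k = 1 then eval x (homogeneousComponent 1 (P a b)) else 0) := by
      intro k hk
      rw [← sum_mul]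
      by_cases hk1 : k = 1
      · subst hk1
        rw [if_pos rfl, sub_self]
        have : ∑ i : Fin d, c i * ((1 + ((i : ℕ) : ZMod p)) ^ 1 - 1 - ((i : ℕ) : ZMod p) ^ 1) = 0 :=
          sum_eq_zero fun i _ => by ring
        rw [this, zero_mul]
      · rw [if_neg hk1, hc k (by rw [mem_range] at hk; omega) hk1, one_mul, sub_zero]
    rw [sum_congr rfl e5, sum_sub_distrib, ← e3, sum_ite_eq' (range (d + 1)) 1,
      if_pos (mem_range.2 (by omega))]
  have hk : (polyMap P x - g x).rank ≤ d * r := by
    rw [key]
    refine (rank_sum_le' _ _).trans ?_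
    calc ∑ i : Fin d, (c i • (polyMap P (x + ((i : ℕ) : ZMod p) • x) - polyMap P x -
        polyMap P (((i : ℕ) : ZMod p) • x))).rank ≤ ∑ _i : Fin d, r :=
          sum_le_sum fun i _ => (rank_smul_le' _ _).trans (hf _ _)
      _ = d * r := by rw [sum_const, card_univ, Fintype.card_fin, smul_eq_mul]
  exact hk

end Pool.Agent.Results.MP_d3b2ec_co.PolynomialMaps
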